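import Mathlib

namespace Pool.Agent.H.MP_4b601f_co

open Finset Filter Classical

noncomputable def cnt (p : ℕ → Prop) (n : ℕ) : ℕ := #{x ∈ range n | p x}

lemma cnt_zero (p : ℕ → Prop) : cnt p 0 = 0 := by simp [cnt]

lemma cnt_pos {p : ℕ → Prop} {n : ℕ} (h : p n) : cnt p (n + 1) = cnt p n + 1 := by
  unfold cnt; rw [range_add_one, filter_insert, if_pos h, card_insert_of_notMem (by simp)]

lemma cnt_neg {p : ℕ → Prop} {n : ℕ} (h : ¬ p n) : cnt p (n + 1) = cnt p n := by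
  unfold cnt; rw [range_add_one, filter_insert, if_neg h]

lemma cnt_mono (p : ℕ → Prop) {m n : ℕ} (h : m ≤ n) : cnt p m ≤ cnt p n :=
  card_le_card (filter_subset_filter _ (range_mono h))

lemma cnt_lt {p : ℕ → Prop} {m n : ℕ} (hm : p m) (h : m < n) : cnt p m < cnt p n :=
  lt_of_lt_of_le (by rw [cnt_pos hm]; omega) (cnt_mono p (Nat.succ_le_of_lt h))

lemma cnt_add (p : ℕ → Prop) (a n : ℕ) : cnt p (a + n) = cnt p a + cnt (fun k => p (a + k)) n := by
  induction n with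
  | zero => simp [cnt_zero]
  | succ n ih =>
    by_cases h : p (a + n)
    · rw [← add_assoc, cnt_pos h, cnt_pos (p := fun k => p (a + k)) h, ih, add_assoc]
    · rw [← add_assoc, cnt_neg h, cnt_neg (p := fun k => p (a + k)) h, ih]

lemma cnt_step (p : ℕ → Prop) (n : ℕ) : cnt p n ≤ cnt p (n + 1) ∧ cnt p (n + 1) ≤ cnt p n + 1 := by
  by_cases h : p n
  · rw [cnt_pos h]; omega
  · rw [cnt_neg h]; omega

/-- infinitely many zeros -/
def Inf (e : ℕ → Prop) : Prop := ∀ N, ∃ m, N ≤ m ∧ ¬ e m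

lemma cnt_unb {p : ℕ → Prop} (h : ∀ N, ∃ m, N ≤ m ∧ p m) (K : ℕ) : ∃ X, K < cnt p X := by
  induction K with
  | zero => obtain ⟨m, -, hm⟩ := h 0; exact ⟨m + 1, by rw [cnt_pos hm]; omega⟩
  | succ K ih =>
    obtain ⟨X, hX⟩ := ih
    obtain ⟨m, h1, hm⟩ := h X
    exact ⟨m + 1, by rw [cnt_pos hm]; have := cnt_mono p h1; omega⟩

def P (c : ℕ → ℕ) (t : ℕ) : ℕ := t + ∑ u ∈ range t, c u
def Q (c : ℕ → ℕ) (t : ℕ) : ℕ := P c t + c t

lemma P_zero (c : ℕ → ℕ) : P c 0 = 0 := by simp [P]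
lemma P_succ (c : ℕ → ℕ) (t : ℕ) : P c (t + 1) = Q c t + 1 := by
  simp [P, Q, sum_range_succ]; ring

lemma Q_lt (c : ℕ → ℕ) {s t : ℕ} (h : s < t) : Q c s < P c t := by
  induction h with
  | refl => rw [P_succ]; omega
  | step _ ih => rw [P_succ]; unfold Q at *; omega

lemma Q_ge (c : ℕ → ℕ) (t : ℕ) : t ≤ Q c t := by unfold Q P; omega

/-- the zeros of `e` are at the positions `Q c t` -/
def RecQ (e : ℕ → Prop) (c : ℕ → ℕ) : Prop := ∀ m, ¬ e m ↔ ∃ t, m = Q c t

noncomputable def z (e : ℕ → Prop) : ℕ → ℕ := cnt fun m => ¬ e m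

lemma RecQ.inf {e : ℕ → Prop} {c : ℕ → ℕ} (h : RecQ e c) : Inf e :=
  fun N => ⟨Q c N, Q_ge c N, (h _).2 ⟨N, rfl⟩⟩

lemma RecQ.one {e : ℕ → Prop} {c : ℕ → ℕ} (h : RecQ e c) {t m : ℕ} (h1 : P c t ≤ m)
    (h2 : m < Q c t) : e m := by
  by_contra k
  obtain ⟨s, rfl⟩ := (h m).1 k
  rcases lt_trichotomy s t with a | a | a
  · have := Q_lt c a; omega
  · subst a; omega
  · have := Q_lt c a; unfold Q at *; omega

lemma RecQ.z_eq {e : ℕ → Prop} {c : ℕ → ℕ} (h : RecQ e c) (t : ℕ) :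
    ∀ m, P c t ≤ m → m ≤ Q c t → z e m = t := by
  have k : ∀ t, z e (P c t) = t → ∀ m, P c t ≤ m → m ≤ Q c t → z e m = t := by
    intro t h0 m h1
    induction h1 with
    | refl => exact fun _ => h0
    | step h1 ih =>
      intro h2
      rw [z, cnt_neg (not_not.2 (h.one h1 h2))]
      exact ih (Nat.le_of_succ_le h2)
  refine k t ?_
  induction t with
  | zero => rw [P_zero]; exact cnt_zero _
  | succ t ih =>
    rw [P_succ, z, cnt_pos ((h _).2 ⟨t, rfl⟩)]
    exact congrArg (· + 1) (k t ih _ (Nat.le_add_right _ _) le_rfl)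

lemma cover (c : ℕ → ℕ) (m : ℕ) : ∃ t, P c t ≤ m ∧ m ≤ Q c t := by
  induction m with
  | zero => exact ⟨0, by rw [P_zero], Nat.zero_le _⟩
  | succ m ih =>
    obtain ⟨t, a, b⟩ := ih
    rcases b.eq_or_lt with rfl | b
    · exact ⟨t + 1, by rw [P_succ], by rw [← P_succ]; exact Nat.le_add_right _ _⟩
    · exact ⟨t, by omega, b⟩

lemma RecQ.mem {e : ℕ → Prop} {c : ℕ → ℕ} (h : RecQ e c) {m : ℕ} (hm : e m) :
    P c (z e m) ≤ m ∧ m < Q c (z e m) := by
  obtain ⟨t, a, b⟩ := cover c m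
  rw [h.z_eq t m a b]
  exact ⟨a, lt_of_le_of_ne b fun k => (h m).2 ⟨t, k⟩ hm⟩

lemma Inf.rec {e : ℕ → Prop} (h : Inf e) : ∃ c, RecQ e c := by
  have hi : {m | ¬ e m}.Infinite := Set.infinite_of_forall_exists_gt fun N => by
    obtain ⟨m, a, b⟩ := h (N + 1); exact ⟨m, b, a⟩
  let q := Nat.nth fun m => ¬ e m
  have sm : StrictMono q := Nat.nth_strictMono hi
  let c : ℕ → ℕ := fun t => if t = 0 then q 0 else q t - q (t - 1) - 1
  have e1 : ∀ t, Q c t = q t := by
    intro t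
    induction t with
    | zero => simp [Q, P_zero, c]
    | succ t ih =>
      have := sm (Nat.lt_add_one t)
      rw [Q, P_succ, ih]; simp only [c]; simp; omega
  refine ⟨c, fun m => ?_⟩
  simp only [e1]
  constructor
  · intro k
    have : m ∈ Set.range q := by rw [Nat.range_nth_of_infinite hi]; exact k
    obtain ⟨t, ht⟩ := this
    exact ⟨t, ht.symm⟩
  · rintro ⟨t, rfl⟩; exact Nat.nth_mem_of_infinite hi t

/-- `e'` arises from `e` by deleting ones and inserting zeros -/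
def Rel (e' e : ℕ → Prop) : Prop := ∃ h : ℕ → ℕ, h 0 = 0 ∧ (∀ s, h s ≤ h (s + 1) ∧ h (s + 1) ≤ h s + 1) ∧
  (∀ s, e' s → e (h s)) ∧ ∀ s s', e' s → e' s' → h s = h s' → s = s'

lemma Rel.inf {e' e : ℕ → Prop} (h : Rel e' e) (hi : Inf e) : Inf e' := by
  obtain ⟨h, -, h1, h2, h3⟩ := h
  intro N
  by_contra k
  push Not at k
  have a : ∀ j, h (N + j) = h N + j := by
    intro j
    induction j with
    | zero => rfl
    | succ j ih =>
      have := h1 (N + j)
      have : h (N + j) ≠ h (N + j + 1) := fun c => by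
        have := h3 _ _ (k _ (by omega)) (k _ (by omega)) c; omega
      rw [← add_assoc]; omega
  obtain ⟨m, b, c⟩ := hi (h N)
  refine c ?_
  have := h2 _ (k (N + (m - h N)) (by omega))
  rwa [a, Nat.add_sub_cancel' b] at this

def δ (r i : ℕ) : ℕ := if i ≤ r then 1 else 0

noncomputable def Cs (b r : ℕ) (E : ℕ → ℕ → Prop) (t : ℕ) : Finset ℕ :=
  {i ∈ Icc 1 b | δ r i ≤ t ∧ E i (t - δ r i)}

def Rec (b r : ℕ) (e : ℕ → Prop) (E : ℕ → ℕ → Prop) : Prop := RecQ e fun t => #(Cs b r E t)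

lemma build {b r : ℕ} {e e' : ℕ → Prop} {E : ℕ → ℕ → Prop} (hr : r ≤ b) (h : Rec b r e E)
    (hR : Rel e' e) : ∃ (r' : ℕ) (E' : ℕ → ℕ → Prop), Rec b r' e' E' ∧ (∀ i, Rel (E' i) (E i)) ∧
      (r' = b ∨ r' = r ∧ (¬ e' 0 → ¬ e 0)) := by
  obtain ⟨c', h'⟩ := (hR.inf h.inf).rec
  obtain ⟨f, f0, f1, f2, f3⟩ := hR
  set c := fun t => #(Cs b r E t) with hc
  have hι : ∀ t, ∃ ι : ℕ → ℕ, Set.BijOn ι (Ico (P c t) (Q c t) : Finset ℕ) (Cs b r E t) :=
    fun t => (Finset.finite_toSet _).exists_bijOn_of_encard_eq (by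
      rw [Set.encard_coe_eq_coe_finsetCard, Set.encard_coe_eq_coe_finsetCard]; simp [Q, c])
  choose ι hι using hι
  have i1 : ∀ m, e m → ι (z e m) m ∈ Cs b r E (z e m) := fun m hm =>
    (hι _).mapsTo (by simpa using h.mem hm)
  have i2 : ∀ m m', e m → e m' → z e m = z e m' → ι (z e m) m = ι (z e m') m' → m = m' := by
    intro m m' a a' k l
    refine (hι (z e m)).injOn (by simpa using h.mem a) (by rw [k]; simpa using h.mem a') ?_
    rw [l, k]
  let g : ℕ → ℕ := fun t => z e (f (P c' t))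
  have g1 : ∀ t s, P c' t ≤ s → s ≤ Q c' t → z e (f s) = g t := by
    intro t s h1
    induction h1 with
    | refl => exact fun _ => rfl
    | @step s h1 ih =>
      intro h2
      rw [← ih (Nat.le_of_succ_le h2)]
      rcases (f1 s).1.eq_or_lt with k | k
      · rw [← k]
      · rw [show f (s + 1) = f s + 1 by have := (f1 s).2; omega, z,
          cnt_neg (not_not.2 (f2 s (h'.one h1 h2)))]
  have g0 : g 0 = 0 := by simp only [g, P_zero, f0]; exact cnt_zero _
  have g2 : ∀ t, g t ≤ g (t + 1) ∧ g (t + 1) ≤ g t + 1 := by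
    intro t
    rw [← g1 t (Q c' t) (Nat.le_add_right _ _) le_rfl]
    simp only [g, P_succ]
    rcases (f1 (Q c' t)).1.eq_or_lt with k | k
    · rw [← k]; omega
    · rw [show f (Q c' t + 1) = f (Q c' t) + 1 by have := (f1 (Q c' t)).2; omega]
      exact cnt_step _ _
  have g3 : ∀ s, e' s → z e (f s) = g (z e' s) := fun s hs =>
    g1 _ s (h'.mem hs).1 (h'.mem hs).2.le
  obtain ⟨r', r1, r2, r3⟩ : ∃ r', (r' = b ∨ r' = r ∧ (¬ e' 0 → ¬ e 0)) ∧
      (∀ i, g (δ r' i) - δ r i = 0) ∧ ∀ s, e' s → δ r' (ι (z e (f s)) (f s)) ≤ z e' s := by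
    by_cases k : ¬ e' 0 ∧ e 0
    · have q0 : Q c' 0 = 0 := by
        obtain ⟨t, ht⟩ := (h' 0).1 k.1
        have := Q_ge c' t
        obtain rfl : t = 0 := by omega
        exact ht.symm
      have : g 1 = 0 := by
        simp only [g, P_succ, q0]
        have := f1 0
        rcases Nat.eq_zero_or_pos (f (0 + 1)) with l | l
        · rw [l]; exact cnt_zero _
        · rw [show f (0 + 1) = 0 + 1 by omega, z, cnt_neg (not_not.2 k.2)]; exact cnt_zero _
      refine ⟨b, Or.inl rfl, fun i => ?_, fun s hs => ?_⟩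
      · unfold δ; split_ifs <;> omega
      · have := h'.mem hs
        have : z e' s ≠ 0 := fun l => by rw [l] at this; omega
        unfold δ; split_ifs <;> omega
    · refine ⟨r, Or.inr ⟨rfl, by tauto⟩, fun i => ?_, fun s hs => ?_⟩
      · have := g2 0; rw [zero_add] at this; unfold δ; split_ifs <;> omega
      · have := (mem_filter.1 (i1 _ (f2 s hs))).2.1
        have l := g3 s hs
        rcases Nat.eq_zero_or_pos (z e' s) with a | a
        · rw [a, g0] at l; omega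
        · unfold δ; split_ifs <;> omega
  refine ⟨r', fun i k => ∃ s, e' s ∧ ι (z e (f s)) (f s) = i ∧ z e' s = k + δ r' i, ?_,
    fun i => ⟨fun k => g (k + δ r' i) - δ r i, by simpa using r2 i, fun k => ?_, ?_, ?_⟩, r1⟩
  · unfold Rec
    convert h' with t
    have : c' t = #(Ico (P c' t) (Q c' t)) := by simp [Q]
    rw [this]
    refine (card_nbij (fun s => ι (z e (f s)) (f s)) (fun s hs => ?_) (fun s hs s' hs' k => ?_)
      fun i hi => ?_).symm
    · simp only [coe_Ico, Set.mem_Ico] at hs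
      have a := h'.one hs.1 hs.2
      have l := h'.z_eq t s hs.1 hs.2.le
      have := r3 s a
      exact mem_filter.2 ⟨(mem_filter.1 (i1 _ (f2 s a))).1, l ▸ this, s, a, rfl, by beta_reduce; omega⟩
    · simp only [coe_Ico, Set.mem_Ico] at hs hs'
      have a := h'.one hs.1 hs.2
      have a' := h'.one hs'.1 hs'.2
      exact f3 _ _ a a' (i2 _ _ (f2 _ a) (f2 _ a')
        (by rw [g1 t s hs.1 hs.2.le, g1 t s' hs'.1 hs'.2.le]) k)
    · obtain ⟨-, a, s, s1, s2, s3⟩ := mem_filter.1 hi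
      refine ⟨s, ?_, s2⟩
      have := h'.mem s1
      rw [show z e' s = t by omega] at this
      simpa using this
  · have := g2 (k + δ r' i)
    beta_reduce
    rw [show k + 1 + δ r' i = k + δ r' i + 1 by ring]; omega
  · rintro k ⟨s, s1, s2, s3⟩
    have := (mem_filter.1 (i1 _ (f2 s s1))).2.2
    rwa [s2, g3 s s1, s3] at this
  · rintro k k' ⟨s, s1, s2, s3⟩ ⟨s', t1, t2, t3⟩ l
    have a := (mem_filter.1 (i1 _ (f2 s s1))).2.1
    have a' := (mem_filter.1 (i1 _ (f2 s' t1))).2.1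
    rw [s2, g3 s s1, s3] at a
    rw [t2, g3 s' t1, t3] at a'
    have : s = s' := f3 _ _ s1 t1 (i2 _ _ (f2 _ s1) (f2 _ t1)
      (by rw [g3 s s1, g3 s' t1, s3, t3]; simp only at l; omega) (s2.trans t2.symm))
    subst this; omega

/-- a system of sequences on a tree -/
def Sys (b r : List ℕ → ℕ) (d : List ℕ → ℕ → Prop) : Prop :=
  (∀ w, Rec (b w) (r w) (d w) fun i => d ((i - 1) :: w)) ∧
  ∀ A : Set (List ℕ), (∀ w ∈ A, ¬ d w 0 ∧ ∃ k, k :: w ∈ A ∧ r w < k + 1 ∧ k < b w) → A = ∅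

lemma Sys.down {b r : List ℕ → ℕ} {d : List ℕ → ℕ → Prop} (hr : ∀ w, r w ≤ b w) (h : Sys b r d)
    {e' : ℕ → Prop} (he : Rel e' (d [])) :
    ∃ r' d', (∀ w, r' w ≤ b w) ∧ Sys b r' d' ∧ d' [] = e' := by
  have k : ∀ w (e : ℕ → Prop), ∃ (r' : ℕ) (E' : ℕ → ℕ → Prop), Rel e (d w) →
      Rec (b w) r' e E' ∧ (∀ i, Rel (E' i) (d ((i - 1) :: w))) ∧
      (r' = b w ∨ r' = r w ∧ (¬ e 0 → ¬ d w 0)) := by
    intro w e
    by_cases c : Rel e (d w)
    · obtain ⟨r', E', a⟩ := build (hr w) (h.1 w) c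
      exact ⟨r', E', fun _ => a⟩
    · exact ⟨0, fun _ _ => True, fun a => (c a).elim⟩
  choose R E k using k
  let d' : List ℕ → ℕ → Prop := fun w => List.rec e' (fun j w x => E w x (j + 1)) w
  have a : ∀ w, Rel (d' w) (d w) := by
    intro w
    induction w with
    | nil => exact he
    | cons j w ih => exact (k w _ ih).2.1 (j + 1)
  refine ⟨fun w => R w (d' w), d', fun w => ?_, ⟨fun w => ?_, fun A hA => h.2 A fun w hw => ?_⟩, rfl⟩
  · have := hr w
    rcases (k w _ (a w)).2.2 with c | c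
    exacts [c.le, c.1.le.trans this]
  · have := (k w _ (a w)).1
    unfold Rec at this ⊢
    convert this using 3 with t
    refine filter_congr fun i hi => ?_
    obtain ⟨j, rfl⟩ : ∃ j, i = j + 1 := ⟨i - 1, by have := (mem_Icc.1 hi).1; omega⟩
    rfl
  · obtain ⟨h1, j, h2, h3, h4⟩ := hA w hw
    rcases (k w _ (a w)).2.2 with c | c
    · simp only at h3; omega
    · exact ⟨c.2 h1, j, h2, c.1 ▸ h3, h4⟩

def D (b r : List ℕ → ℕ) : ℕ → List ℕ → ℕ → Prop
  | 0, _ => fun _ => True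
  | n + 1, w => fun m => ¬ ∃ t, m = Q (fun t => #(Cs (b w) (r w) (fun i => D b r n ((i - 1) :: w)) t)) t

lemma exists_sys (b r : List ℕ → ℕ) : ∃ d, Sys b r d := by
  let U := hyperfilter ℕ
  let d : List ℕ → ℕ → Prop := fun w m => ∀ᶠ N in U, D b r (N - w.length) w m
  have ev : ∀ w m, ∀ᶠ N in U, (D b r (N - w.length) w m ↔ d w m) := by
    intro w m
    by_cases c : d w m
    · exact c.mono fun N h => by simp [h, c]
    · exact (Ultrafilter.eventually_not.2 c).mono fun N h => by simp [h, c]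
  refine ⟨d, fun w m => ?_, fun A hA => ?_⟩
  · have e1 : ∀ᶠ N in U, ∀ i ∈ Icc 1 (b w), ∀ s ∈ range (m + 1),
        (D b r (N - ((i - 1) :: w).length) ((i - 1) :: w) s ↔ d ((i - 1) :: w) s) := by
      simp only [eventually_all_finset]
      exact fun i _ s _ => ev _ _
    have e2 : ∀ᶠ N in U, w.length < N :=
      (Nat.hyperfilter_le_atTop) (eventually_gt_atTop _)
    obtain ⟨N, h1, h2, h3⟩ := (e1.and (e2.and (ev w m))).exists
    rw [← h3, show N - w.length = (N - (w.length + 1)) + 1 by omega, D, not_not]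
    refine exists_congr fun t => ?_
    by_cases c : t ≤ m
    · have : ∀ u ≤ t, #(Cs (b w) (r w) (fun i => D b r (N - (w.length + 1)) ((i - 1) :: w)) u)
          = #(Cs (b w) (r w) (fun i => d ((i - 1) :: w)) u) := fun u hu => by
        unfold Cs
        congr 1
        exact filter_congr fun i hi => and_congr_right fun _ => h1 i hi _ (by simp; omega)
      unfold Q P
      beta_reduce
      rw [this t le_rfl, sum_congr rfl fun u hu => this u (mem_range.1 hu).le]
    · have := Q_ge (fun t => #(Cs (b w) (r w)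
        (fun i => D b r (N - (w.length + 1)) ((i - 1) :: w)) t)) t
      have := Q_ge (fun t => #(Cs (b w) (r w) (fun i => d ((i - 1) :: w)) t)) t
      omega
  · have : ∀ n, ∀ w ∈ A, D b r n w 0 := by
      intro n
      induction n with
      | zero => exact fun _ _ => trivial
      | succ n ih =>
        rintro w hw ⟨t, ht⟩
        obtain ⟨-, k, h2, h3, h4⟩ := hA w hw
        have := Q_ge (fun t => #(Cs (b w) (r w) (fun i => D b r n ((i - 1) :: w)) t)) t
        obtain rfl : t = 0 := by omega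
        rw [Q, P_zero, zero_add] at ht
        have l : δ (r w) (k + 1) = 0 := if_neg (by omega)
        refine (card_pos.2 ⟨k + 1, mem_filter.2 ⟨mem_Icc.2 ⟨by omega, h4⟩, l.le, ?_⟩⟩).ne ht
        rw [l]; exact ih _ h2
    exact Set.eq_empty_of_forall_notMem fun w hw =>
      (hA w hw).1 (Eventually.of_forall fun N => this _ w hw)

end Pool.Agent.H.MP_4b601f_co
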